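import Pool.Agent.H87.EP.PStm

/-! Part PELL3: all solutions of the Pell equation in a model of PA. -/

set_option autoImplicit false

namespace Pool.Agent.H50.EP

open Pool.Agent.Helper687.Arith Pool.Agent.H51.EP Pool.Agent.H87.EP

theorem PELL3 : S_PELL3 := by
  intro M _ hI hO a ha x y hxy
  have ha' : (1 : Zr M) < (a : Zr M) := by
    have := Zr.coe_lt.mpr ha
    rwa [Zr.coe_one] at this
  have key : ∀ y : M, ∀ x : M, (x : Zr M) ^ 2 - ((a : Zr M) ^ 2 - 1) * (y : Zr M) ^ 2 = 1 →
      ∃ n : M, x = X a n ∧ y = Y a n := by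
    intro y
    refine strong_ind (M := M) (P := fun y : M => ∀ x : M,
      (x : Zr M) ^ 2 - ((a : Zr M) ^ 2 - 1) * (y : Zr M) ^ 2 = 1 →
      ∃ n : M, x = X a n ∧ y = Y a n) (by (repeat' first | with_reducible apply Pool.Agent.H87.EP.DefF.Y | with_reducible apply Pool.Agent.H87.EP.DefF.X | with_reducible apply Pool.Agent.H87.EP.DefF.dd | with_reducible apply Pool.Agent.Helper687.Arith.DefF.snd | with_reducible apply Pool.Agent.Helper687.Arith.DefF.fst | with_reducible apply Pool.Agent.H87.EP.DefZ.eq | with_reducible apply Pool.Agent.H87.EP.DefZ.lt | with_reducible apply Pool.Agent.H87.EP.DefZ.le | with_reducible apply Pool.Agent.H87.EP.DefZ.dvd | with_reducible exact Pool.Agent.H87.EP.DefZ.const _ | with_reducible apply Pool.Agent.H87.EP.DefZ.coe | with_reducible apply Pool.Agent.H87.EP.DefZ.add | with_reducible apply Pool.Agent.H87.EP.DefZ.mul | with_reducible apply Pool.Agent.H87.EP.DefZ.sub | with_reducible apply Pool.Agent.H87.EP.DefZ.neg | with_reducible apply Pool.Agent.H87.EP.DefZ.npow | with_reducible apply Pool.Agent.H51.EP.Def.cg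 | with_reducible apply Pool.Agent.H51.EP.DefF.pr | with_reducible apply Pool.Agent.H51.EP.DefF.bn | with_reducible apply Pool.Agent.H51.EP.DefF.ff | with_reducible apply Pool.Agent.H51.EP.DefF.fc | with_reducible apply Pool.Agent.H51.EP.DefF.pw | with_reducible apply Pool.Agent.H51.EP.DefF.sb | with_reducible apply Pool.Agent.H51.EP.DefF.rc | with_reducible apply Pool.Agent.H51.EP.Def.dvd | assumption | with_reducible exact Pool.Agent.Helper687.Arith.DefF.var _ | with_reducible exact Pool.Agent.Helper687.Arith.DefF.const _ | with_reducible exact Pool.Agent.Helper687.Arith.Def.const _ | with_reducible apply Pool.Agent.Helper687.Arith.DefF.val | with_reducible apply Pool.Agent.Helper687.Arith.DefF.pow2 | with_reducible apply Pool.Agent.Helper687.Arith.Def.and | with_reducible apply Pool.Agent.Helper687.Arith.Def.or | with_reducible apply Pool.Agent.Helper687.Arith.Def.iff | with_reducible apply Pool.Agent.Helper687.Arith.Def.not | with_reducible apply Pool.Agent.Helper687.Arith.Def.ex | with_reducible apply Pool.Agent.Helper687.Arith.Def.all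 | with_reducible apply Pool.Agent.Helper687.Arith.Def.imp | with_reducible apply Pool.Agent.Helper687.Arith.Def.eq | with_reducible apply Pool.Agent.Helper687.Arith.Def.lt | with_reducible apply Pool.Agent.Helper687.Arith.Def.le | with_reducible apply Pool.Agent.Helper687.Arith.DefF.add | with_reducible apply Pool.Agent.Helper687.Arith.DefF.mul | with_reducible apply Pool.Agent.Helper687.Arith.DefF.the)) ?_ y
    intro y ih x h
    have hx0 := Zr.coe_nonneg x
    have hy0 := Zr.coe_nonneg y
    rcases eq_or_ne y 0 with rfl | hy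
    · refine ⟨0, ?_, by simp⟩
      rw [X_zero, ← Zr.coe_inj, Zr.coe_one]
      rw [Zr.coe_zero] at h
      have h1 : ((x : Zr M) - 1) * ((x : Zr M) + 1) = 0 := by linear_combination h
      rcases mul_eq_zero.mp h1 with h2 | h2
      · linear_combination h2
      · exfalso; linarith
    · have hy1 : (0 : Zr M) < (y : Zr M) := by
        rw [← Zr.coe_zero, Zr.coe_lt]; exact pos_of_ne hy
      have hy2 : (1 : Zr M) ≤ (y : Zr M) := by
        have := Zr.lt_iff_add_one_le.mp hy1
        linarith
      have hA : (x : Zr M) ≤ (a : Zr M) * y := by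
        refine le_of_sq_le_sq ?_ ?_
        · nlinarith
        · positivity
      have hB : ((a : Zr M) - 1) * y < (x : Zr M) := by
        refine lt_of_pow_lt_pow_left₀ 2 hx0 ?_
        · have : (x : Zr M) ^ 2 - (((a : Zr M) - 1) * y) ^ 2 = 1 + 2 * ((a : Zr M) - 1) * y ^ 2 := by
            linear_combination h
          have h3 : 0 ≤ 2 * ((a : Zr M) - 1) * (y : Zr M) ^ 2 := by
            apply mul_nonneg
            · linarith
            · positivity
          linarith
      have hC : ((a : Zr M) ^ 2 - 1) * y ≤ (a : Zr M) * x := by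
        have ha2 : 0 ≤ (a : Zr M) ^ 2 - 1 := by nlinarith
        refine le_of_sq_le_sq ?_ ?_
        · have e : ((a : Zr M) * x) ^ 2 - (((a : Zr M) ^ 2 - 1) * y) ^ 2 =
              a ^ 2 + ((a : Zr M) ^ 2 - 1) * y ^ 2 := by
            linear_combination (a : Zr M) ^ 2 * h
          have h3 : 0 ≤ ((a : Zr M) ^ 2 - 1) * (y : Zr M) ^ 2 := mul_nonneg ha2 (by positivity)
          have h4 : 0 ≤ (a : Zr M) ^ 2 := by positivity
          linarith
        · apply mul_nonneg (by linarith) hx0
      obtain ⟨y', hy'⟩ := Zr.nonneg_iff.mp (sub_nonneg.mpr hA)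
      obtain ⟨x', hx'⟩ := Zr.nonneg_iff.mp (sub_nonneg.mpr hC)
      have hlt : y' < y := by
        rw [← Zr.coe_lt, ← hy']; linarith
      obtain ⟨n, hn1, hn2⟩ := ih y' hlt x' (by
        rw [← hy', ← hx']; linear_combination h)
      refine ⟨n + 1, ?_, ?_⟩
      · rw [← Zr.coe_inj, hI.X_succ ha, ← hn1, ← hn2, ← hx', ← hy']; ring
      · rw [← Zr.coe_inj, hI.Y_succ ha, ← hn1, ← hn2, ← hx', ← hy']; ring
  exact key y x hxy

end Pool.Agent.H50.EP
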