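import Pool.Agent.H87.EP.PStm

/-! Part PELL8: the step down lemma for the Pell sequences in a model of PA. -/

set_option autoImplicit false

namespace Pool.Agent.H50.EP

open Pool.Agent.Helper687.Arith Pool.Agent.H51.EP Pool.Agent.H87.EP

section

variable {M : Type} [PAModel M]

theorem step_K (hO : PellOrd M) {a : M} (ha : 1 < a) {i k n : M} (hi : i ≤ n) (hk : k ≤ n)
    (h : ((X a n : M) : Zr M) ∣ ((X a k : M) : Zr M) - X a i) : k = i := by
  have p1 : (0 : Zr M) < ((X a k : M) : Zr M) := by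
    rw [← Zr.coe_zero, Zr.coe_lt]; exact hO.X_pos ha k
  have p2 : (0 : Zr M) < ((X a i : M) : Zr M) := by
    rw [← Zr.coe_zero, Zr.coe_lt]; exact hO.X_pos ha i
  have l1 : ((X a k : M) : Zr M) ≤ ((X a n : M) : Zr M) := Zr.coe_le.mpr (hO.X_le ha hk)
  have l2 : ((X a i : M) : Zr M) ≤ ((X a n : M) : Zr M) := Zr.coe_le.mpr (hO.X_le ha hi)
  apply hO.X_inj ha
  rw [← Zr.coe_inj]
  rcases lt_trichotomy ((X a k : M) : Zr M) ((X a i : M) : Zr M) with h1 | h1 | h1
  · have h2 := Zr.le_of_dvd (x := ((X a n : M) : Zr M)) (y := ((X a i : M) : Zr M) - X a k)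
      (by linarith) (by
        have := (dvd_neg (a := ((X a n : M) : Zr M))).mpr h
        rwa [neg_sub] at this)
    linarith
  · exact h1
  · have h2 := Zr.le_of_dvd (x := ((X a n : M) : Zr M)) (y := ((X a k : M) : Zr M) - X a i)
      (by linarith) h
    linarith

theorem step_L (hO : PellOrd M) {a : M} (ha : 1 < a) {i k n : M} (hi0 : 0 < i) (hi : i ≤ n)
    (hk : k ≤ n)
    (h : ((X a n : M) : Zr M) ∣ ((X a k : M) : Zr M) + X a i) : k = n ∧ i = n := by
  have p1 : (0 : Zr M) < ((X a k : M) : Zr M) := by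
    rw [← Zr.coe_zero, Zr.coe_lt]; exact hO.X_pos ha k
  have p2 : (0 : Zr M) < ((X a i : M) : Zr M) := by
    rw [← Zr.coe_zero, Zr.coe_lt]; exact hO.X_pos ha i
  have p3 : (0 : Zr M) < ((X a n : M) : Zr M) := by
    rw [← Zr.coe_zero, Zr.coe_lt]; exact hO.X_pos ha n
  have l1 : ((X a k : M) : Zr M) ≤ ((X a n : M) : Zr M) := Zr.coe_le.mpr (hO.X_le ha hk)
  have l2 : ((X a i : M) : Zr M) ≤ ((X a n : M) : Zr M) := Zr.coe_le.mpr (hO.X_le ha hi)
  obtain ⟨c, hc⟩ := h
  have c0 : 0 < c := by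
    by_contra hcn
    push Not at hcn
    have := mul_nonpos_of_nonneg_of_nonpos p3.le hcn
    linarith
  have c1 : 1 ≤ c := by
    have := Zr.lt_iff_add_one_le.mp c0
    linarith
  rcases eq_or_lt_of_le c1 with h1 | h1
  · exfalso
    rw [← h1, mul_one] at hc
    have hkn : k ≠ n := by
      rintro rfl
      linarith
    have hin : i ≠ n := by
      rintro rfl
      linarith
    have hn0 : 0 < n := lt_of_lt_of_le hi0 hi
    obtain ⟨p, hp⟩ := exists_pred hn0
    have hkp : k ≤ p := by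
      have := lt_of_le_of_ne hk hkn
      rw [hp] at this
      exact lt_succ_iff.mp this
    have hip : i ≤ p := by
      have := lt_of_le_of_ne hi hin
      rw [hp] at this
      exact lt_succ_iff.mp this
    have q1 : ((X a k : M) : Zr M) ≤ ((X a p : M) : Zr M) := Zr.coe_le.mpr (hO.X_le ha hkp)
    have q2 : ((X a i : M) : Zr M) ≤ ((X a p : M) : Zr M) := Zr.coe_le.mpr (hO.X_le ha hip)
    have q3 := Zr.coe_lt.mpr (hO.two_mul_X_lt ha (n := p) (lt_of_lt_of_le hi0 hip))
    rw [← hp] at q3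
    rw [Zr.coe_mul, Zr.coe_ofNat 2] at q3
    linarith
  · have c2 : 2 ≤ c := by
      have := Zr.lt_iff_add_one_le.mp h1
      linarith
    have h3 : ((X a n : M) : Zr M) * 2 ≤ ((X a n : M) : Zr M) * c :=
      mul_le_mul_of_nonneg_left c2 p3.le
    constructor
    · apply hO.X_inj ha
      rw [← Zr.coe_inj]
      linarith
    · apply hO.X_inj ha
      rw [← Zr.coe_inj]
      linarith

end

theorem PELL8 : S_PELL8 := by
  intro M _ _ hO hP a ha i j n hi0 hi h
  have hn0 : 0 < n := lt_of_lt_of_le hi0 hi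
  have h4 : (0 : M) < 4 * n := mul_pos (by norm_num) hn0
  obtain ⟨r, ⟨q, hq⟩, hr⟩ := exists_rem j h4
  -- hq : j = q * (4 * n) + r
  have hj : j = 4 * n * q + r := by rw [hq]; ring
  have hjz : (j : Zr M) = 4 * (n : Zr M) * q + r := by
    rw [hj]; push_cast; rw [Zr.coe_ofNat 4]
  have h1 : ((X a n : M) : Zr M) ∣ ((X a r : M) : Zr M) - X a i := by
    have h2 := hP.four_mul ha n q r
    rw [← hj] at h2
    have h3 := dvd_sub h h2
    have e : ((X a j : M) : Zr M) - X a i - (((X a j : M) : Zr M) - X a r) =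
      ((X a r : M) : Zr M) - X a i := by ring
    rwa [e] at h3
  have hrz : (r : Zr M) < 4 * (n : Zr M) := by
    have := Zr.coe_lt.mpr hr
    rw [Zr.coe_mul, Zr.coe_ofNat 4] at this
    exact this
  have hr0 := Zr.coe_nonneg r
  have hn0z := Zr.coe_nonneg n
  rcases le_or_gt (r : Zr M) (n : Zr M) with c1 | c1
  · -- r ≤ n
    left
    have := step_K hO ha hi (Zr.coe_le.mp c1) h1
    subst this
    exact ⟨(q : Zr M), by rw [hjz]; ring⟩
  rcases le_or_gt (r : Zr M) (2 * (n : Zr M)) with c2 | c2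
  · -- n < r ≤ 2 n
    exfalso
    obtain ⟨k, hk⟩ := Zr.nonneg_iff.mp (sub_nonneg.mpr c2)
    have hkr : r + k = 2 * n := by
      rw [← Zr.coe_inj]; push_cast; rw [Zr.coe_ofNat 2, ← hk]; ring
    have h5 := hP.two_sub ha n k r hkr
    have h6 : ((X a n : M) : Zr M) ∣ ((X a k : M) : Zr M) + X a i := by
      have h3 := dvd_sub h5 h1
      have e : ((X a r : M) : Zr M) + X a k - (((X a r : M) : Zr M) - X a i) =
        ((X a k : M) : Zr M) + X a i := by ring
      rwa [e] at h3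
    have hkn : k ≤ n := by
      rw [← Zr.coe_le, ← hk]; linarith
    obtain ⟨e1, _⟩ := step_L hO ha hi0 hi hkn h6
    rw [e1] at hk
    linarith
  rcases le_or_gt (r : Zr M) (3 * (n : Zr M)) with c3 | c3
  · -- 2 n < r ≤ 3 n
    right
    obtain ⟨k, hk⟩ := Zr.nonneg_iff.mp (sub_nonneg.mpr c2.le)
    have hkr : r = 2 * n + k := by
      rw [← Zr.coe_inj]; push_cast; rw [Zr.coe_ofNat 2, ← hk]; ring
    have h5 := hP.two_add ha n k
    rw [← hkr] at h5
    have h6 : ((X a n : M) : Zr M) ∣ ((X a k : M) : Zr M) + X a i := by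
      have h3 := dvd_sub h5 h1
      have e : ((X a r : M) : Zr M) + X a k - (((X a r : M) : Zr M) - X a i) =
        ((X a k : M) : Zr M) + X a i := by ring
      rwa [e] at h3
    have hkn : k ≤ n := by
      rw [← Zr.coe_le, ← hk]; linarith
    obtain ⟨e1, e2⟩ := step_L hO ha hi0 hi hkn h6
    refine ⟨(q : Zr M) + 1, ?_⟩
    rw [hjz, hkr, e1, e2]
    push_cast
    rw [Zr.coe_ofNat 2]
    ring
  · -- 3 n < r < 4 n
    right
    obtain ⟨k, hk⟩ := Zr.nonneg_iff.mp (sub_nonneg.mpr hrz.le)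
    obtain ⟨s, hs⟩ := Zr.nonneg_iff.mp (sub_nonneg.mpr c2.le)
    have hsr : r = 2 * n + s := by
      rw [← Zr.coe_inj]; push_cast; rw [Zr.coe_ofNat 2, ← hs]; ring
    have hsk : s + k = 2 * n := by
      rw [← Zr.coe_inj]; push_cast; rw [Zr.coe_ofNat 2, ← hs, ← hk]; ring
    have h5 := hP.two_add ha n s
    rw [← hsr] at h5
    have h7 := hP.two_sub ha n k s hsk
    have h6 : ((X a n : M) : Zr M) ∣ ((X a k : M) : Zr M) - X a i := by
      have h3 := dvd_add (dvd_sub h7 h5) h1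
      have e : ((X a s : M) : Zr M) + X a k - (((X a r : M) : Zr M) + X a s) +
        (((X a r : M) : Zr M) - X a i) = ((X a k : M) : Zr M) - X a i := by ring
      rwa [e] at h3
    have hkn : k ≤ n := by
      rw [← Zr.coe_le, ← hk]; linarith
    have e1 := step_K hO ha hi hkn h6
    subst e1
    refine ⟨(q : Zr M) + 1, ?_⟩
    rw [hjz, ← hk]
    ring

end Pool.Agent.H50.EP
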